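import Pool.Agent.Q284.PX.Stm3
import Pool.Agent.Q95.PX.LR1

/-!
# PX3-H2F: Rankin-Selberg local factors with prescribed exponents
-/

set_option autoImplicit false

open Finset ComplexConjugate

namespace Pool.Agent.Q223.PX

open Pool.Agent.Q284.PX Pool.Agent.Q95.PX

/-- the general majorant of the recursion -/
theorem rec_gen {e B : ℕ → ℝ} {ρ : ℝ} (hρ : 0 < ρ) (he0 : e 0 = 1) (hB0 : B 0 = 0)
    (hrec : ∀ k : ℕ, (k : ℝ) * e k = ∑ p ∈ antidiagonal k, B p.1 * e p.2)
    (hS : ∀ k : ℕ, 1 ≤ k → ∑ i ∈ Ico 1 (k + 1), |B i| * (ρ⁻¹) ^ i ≤ k) :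
    ∀ k, |e k| ≤ ρ ^ k := by
  intro k
  induction k using Nat.strong_induction_on with
  | _ k ih =>
    rcases Nat.eq_zero_or_pos k with h0 | h0
    · rw [h0, he0, pow_zero, abs_one]
    · have hkpos : (0 : ℝ) < k := by exact_mod_cast h0
      have hrk : 0 < ρ ^ k := by positivity
      have h1 : (k : ℝ) * |e k| ≤ k * ρ ^ k := by
        calc (k : ℝ) * |e k| = |(k : ℝ) * e k| := by rw [abs_mul, Nat.abs_cast]
          _ = |∑ p ∈ antidiagonal k, B p.1 * e p.2| := by rw [hrec]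
          _ ≤ ∑ p ∈ antidiagonal k, |B p.1 * e p.2| := abs_sum_le_sum_abs _ _
          _ ≤ ∑ p ∈ antidiagonal k,
              (if p.1 = 0 then 0 else (|B p.1| * (ρ⁻¹) ^ p.1) * ρ ^ k) := by
              apply sum_le_sum
              rintro ⟨i, j⟩ hij
              rw [HasAntidiagonal.mem_antidiagonal] at hij
              simp only at hij ⊢
              split_ifs with hi
              · rw [hi, hB0]; simp
              · rw [abs_mul]
                have e2 := ih j (by omega)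
                have e3 : (ρ⁻¹) ^ i * ρ ^ k = ρ ^ j := by
                  rw [← hij, pow_add, ← mul_assoc, ← mul_pow, inv_mul_cancel₀ hρ.ne', one_pow,
                    one_mul]
                rw [mul_assoc, e3]
                exact mul_le_mul_of_nonneg_left e2 (abs_nonneg _)
          _ = (∑ i ∈ Ico 1 (k + 1), |B i| * (ρ⁻¹) ^ i) * ρ ^ k := by
              rw [Nat.sum_antidiagonal_eq_sum_range_succ_mk, sum_range_succ', sum_mul,
                sum_Ico_eq_sum_range]
              simp [add_comm]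
          _ ≤ k * ρ ^ k := mul_le_mul_of_nonneg_right (hS k h0) hrk.le
      exact le_of_mul_le_mul_left h1 hkpos

theorem coe_prod {g : ℕ} {x : ℝ} (β : Fin g → ℂ)
    (hβ : (1 - Polynomial.C (x : ℂ) * Polynomial.X -
      Polynomial.C ((-1) ^ g * conj (x : ℂ)) * Polynomial.X ^ (g - 1) +
      Polynomial.C ((-1) ^ g) * Polynomial.X ^ g : Polynomial ℂ) =
      ∏ j, (1 - Polynomial.C (β j) * Polynomial.X)) (hx : x = 0) :
    (1 + PowerSeries.C ((-1) ^ g) * PowerSeries.X ^ g : PowerSeries ℂ) =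
      ∏ j, (1 - PowerSeries.C (β j) * PowerSeries.X) := by
  have h1 := congrArg (Polynomial.coeToPowerSeries.ringHom (R := ℂ)) hβ
  simp only [map_sub, map_add, map_mul, map_prod, map_one, map_pow, map_neg,
    Polynomial.coeToPowerSeries.ringHom_apply, Polynomial.coe_C, Polynomial.coe_X] at h1
  rw [← h1, hx]
  simp

/-- the power sums of the roots for the parameter zero -/
theorem pow_sum0 {g : ℕ} (hg : 1 ≤ g) {x : ℝ} (hx : x = 0) (β : Fin g → ℂ)
    (hβ : (1 - Polynomial.C (x : ℂ) * Polynomial.X -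
      Polynomial.C ((-1) ^ g * conj (x : ℂ)) * Polynomial.X ^ (g - 1) +
      Polynomial.C ((-1) ^ g) * Polynomial.X ^ g : Polynomial ℂ) =
      ∏ j, (1 - Polynomial.C (β j) * Polynomial.X)) :
    ∀ k, ¬ g ∣ k → ∑ j, β j ^ k = 0 := by
  have h1 := coe_prod β hβ hx
  set s : ℂ := (-1) ^ g with hs
  set Pf : PowerSeries ℂ := ∏ j, (1 - PowerSeries.C (β j) * PowerSeries.X) with hPf
  have hth : th Pf = (∑ j, -(Ge (β j) - 1)) * Pf :=
    th_prod univ _ _ (fun j _ => th_lin (β j))
  set S : PowerSeries ℂ := ∑ j, (Ge (β j) - 1) with hS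
  have h2 : (∑ j, -(Ge (β j) - 1)) = -S := by rw [sum_neg_distrib]
  rw [h2, ← h1] at hth
  have h3 : ∀ k, PowerSeries.coeff k S + s * (if k < g then 0 else PowerSeries.coeff (k - g) S) =
      -(k * PowerSeries.coeff k (1 + PowerSeries.C s * PowerSeries.X ^ g)) := by
    intro k
    have h4 := congrArg (PowerSeries.coeff k) hth
    rw [coeff_th] at h4
    rw [h4]
    have h5 : -S * (1 + PowerSeries.C s * PowerSeries.X ^ g) =
        -(S + PowerSeries.C s * (S * PowerSeries.X ^ g)) := by ring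
    rw [h5, map_neg, neg_neg, map_add, PowerSeries.coeff_C_mul, PowerSeries.coeff_mul_X_pow']
    congr 2
    by_cases h6 : k < g
    · rw [if_pos h6, if_neg (by omega)]
    · rw [if_neg h6, if_pos (by omega)]
  have h7 : ∀ k, ¬ g ∣ k → PowerSeries.coeff k S = 0 := by
    intro k
    induction k using Nat.strong_induction_on with
    | _ k ih =>
      intro hk
      have h8 := h3 k
      have h9 : k ≠ 0 := by rintro rfl; exact hk (dvd_zero g)
      have h10 : k ≠ g := by rintro rfl; exact hk dvd_rfl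
      have h11 : PowerSeries.coeff k (1 + PowerSeries.C s * PowerSeries.X ^ g : PowerSeries ℂ) =
          0 := by
        rw [map_add, PowerSeries.coeff_one, if_neg h9, PowerSeries.coeff_C_mul,
          PowerSeries.coeff_X_pow, if_neg h10]
        simp
      rw [h11, mul_zero, neg_zero] at h8
      by_cases h6 : k < g
      · rw [if_pos h6, mul_zero, add_zero] at h8
        exact h8
      · rw [if_neg h6, ih (k - g) (by omega) ?_, mul_zero, add_zero] at h8
        · exact h8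
        · intro h12
          apply hk
          have h13 : k = k - g + g := by omega
          rw [h13]
          exact dvd_add h12 dvd_rfl
  intro k hk
  have h14 := h7 k hk
  have h9 : k ≠ 0 := by rintro rfl; exact hk (dvd_zero g)
  rw [hS, map_sum] at h14
  rw [← h14]
  apply sum_congr rfl
  intro j _
  rw [map_sub, coeff_Ge, PowerSeries.coeff_one, if_neg h9, sub_zero]

theorem al2_norm {g : ℕ} {y : ℝ} (hy : 1 ≤ y) (β : Fin g → ℂ) (hβ : ∀ j, ‖β j‖ = 1) :
    ∀ i, ‖al2 y β i‖ ≤ y := by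
  have hy0 : 0 < y := by linarith
  have h1 : y⁻¹ ≤ y := (inv_le_one_of_one_le₀ hy).trans hy
  rintro (i | i | i)
  · simp only [al2, Sum.elim_inl, norm_one]
    exact hy
  · simp only [al2, Sum.elim_inl, Sum.elim_inr]
    rw [norm_mul, hβ, mul_one, Complex.norm_real, Real.norm_of_nonneg hy0.le]
  · simp only [al2, Sum.elim_inr]
    rw [norm_mul, hβ, mul_one, Complex.norm_real, Real.norm_of_nonneg (by positivity)]
    exact h1

theorem al2_sum {g : ℕ} (y : ℝ) (β : Fin g → ℂ) (k : ℕ) :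
    ∑ i, al2 y β i ^ k = 1 + ((y ^ k + (y⁻¹) ^ k : ℝ) : ℂ) * ∑ j, β j ^ k := by
  rw [Fintype.sum_sum_type, Fintype.sum_sum_type]
  simp only [al2, Sum.elim_inl, Sum.elim_inr, mul_pow, one_pow, ← mul_sum]
  simp only [univ_unique, sum_const, card_singleton, one_smul]
  push_cast
  ring

theorem per (h2 : Pool.Agent.Q284.PS.S_LOC2) {g : ℕ} (hg : 9 ≤ g)
    (hsm : 8 * (g : ℝ) ^ 2 * (rr ^ (g - 1) / (1 - rr)) ≤ 1 / 2) (y : ℝ) (hy : 1 ≤ y)
    (z : ℝ) (hz : |z| ≤ 1 / 100) :
    ∃ e : ℕ → ℝ, e 0 = 1 ∧ e 1 = z ∧ (∀ k, 2 ≤ k → k < g - 1 → |e k| ≤ 10 * z ^ 2) ∧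
      (∀ k : ℕ, |e k| ≤ 2 * (3 : ℝ) ^ ((k : ℝ) / 64) * y ^ (2 * k)) ∧
      (z = 0 → ∀ k : ℕ, |e k| ≤ (8 * (g : ℝ)) ^ ((k : ℝ) / g) * y ^ (2 * k)) ∧
      ∃ β : Fin g → ℂ, (∀ j, ‖β j‖ = 1) ∧ ∏ j, β j = 1 ∧
        (∀ w : ℂ, ∏ j, (1 - conj (β j) * w) = ∏ j, (1 - β j * w)) ∧
        ∀ w : ℂ, y ^ 2 * ‖w‖ < 1 →
          HasSum (fun k : ℕ => (e k : ℂ) * w ^ k)
            ((1 - w) * ∏ i, ∏ j, (1 - al2 y β i * conj (al2 y β j) * w)⁻¹) := by
  have hy0 : 0 < y := by linarith
  have hgr : (9 : ℝ) ≤ g := by exact_mod_cast hg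
  obtain ⟨x, hx2, hx1, hxz⟩ : ∃ x : ℝ, 2 * x + x ^ 2 = z ∧ |x| ≤ 1 / 100 ∧ x ^ 2 ≤ z ^ 2 := by
    have hz' := abs_le.mp hz
    have h0 : 0 ≤ 1 + z := by linarith
    have hs : √(1 + z) ^ 2 = 1 + z := Real.sq_sqrt h0
    have hs1 : 99 / 100 ≤ √(1 + z) := by
      apply Real.le_sqrt_of_sq_le
      norm_num
      linarith
    have hs2 : √(1 + z) ≤ 101 / 100 := by
      rw [Real.sqrt_le_left (by norm_num)]
      norm_num
      linarith
    refine ⟨√(1 + z) - 1, by nlinarith, ?_, ?_⟩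
    · rw [abs_le]
      constructor <;> linarith
    · have e1 : z = (√(1 + z) - 1) * (√(1 + z) + 1) := by nlinarith
      have e2 : z ^ 2 = (√(1 + z) - 1) ^ 2 * (√(1 + z) + 1) ^ 2 := by
        rw [← mul_pow, ← e1]
      rw [e2]
      have e3 : 1 ≤ (√(1 + z) + 1) ^ 2 := by nlinarith
      nlinarith [sq_nonneg (√(1 + z) - 1)]
  have hyy : 0 < y + y⁻¹ := by positivity
  have hyy1 : 1 ≤ y + y⁻¹ := by
    have : 0 < y⁻¹ := by positivity
    linarith
  set b : ℝ := x / (y + y⁻¹) with hb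
  have hbx : |b| ≤ |x| := by
    rw [hb, abs_div, abs_of_pos hyy]
    exact div_le_self (abs_nonneg _) hyy1
  have hcx : ∀ k : ℕ, 1 ≤ k → |(y ^ k + (y⁻¹) ^ k) * b ^ k| ≤ |x| ^ k := by
    intro k hk
    have e1 : y ^ k + (y⁻¹) ^ k ≤ (y + y⁻¹) ^ k :=
      pow_add_pow_le hy0.le (by positivity) (by omega)
    have e2 : 0 ≤ y ^ k + (y⁻¹) ^ k := by positivity
    rw [abs_mul, abs_of_nonneg e2, abs_pow, hb, abs_div, abs_of_pos hyy, div_pow]
    have e3 : 0 < (y + y⁻¹) ^ k := by positivity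
    rw [← mul_div_assoc, div_le_iff₀ e3, mul_comm]
    exact mul_le_mul_of_nonneg_left e1 (by positivity)
  obtain ⟨β, hβ1, hβ, hβp⟩ := h2 g (b : ℂ) (by omega) (by
    rw [Complex.norm_real, Real.norm_eq_abs]
    linarith)
  set α : Unit ⊕ Fin g ⊕ Fin g → ℂ := al2 y β with hα
  have hα1 : ∀ i, ‖α i‖ ≤ y := al2_norm hy β hβ1
  have hpol : ∀ w : ℂ, ∏ j, (1 - β j * w) =
      (1 - b * w - (-1) ^ g * b * w ^ (g - 1) + (-1) ^ g * w ^ g) := by
    intro w
    have e1 := congrArg (Polynomial.eval w) hβ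
    rw [Polynomial.eval_prod] at e1
    simp only [Polynomial.eval_sub, Polynomial.eval_add, Polynomial.eval_mul, Polynomial.eval_C,
      Polynomial.eval_X, Polynomial.eval_pow, Polynomial.eval_one, Complex.conj_ofReal] at e1
    rw [← e1]
  have hconj : ∀ w : ℂ, ∏ j, (1 - conj (β j) * w) = ∏ j, (1 - β j * w) := by
    intro w
    have e1 : ∏ j, (1 - conj (β j) * w) = conj (∏ j, (1 - β j * conj w)) := by
      rw [map_prod]
      apply prod_congr rfl
      intro j _
      rw [map_sub, map_mul, map_one, Complex.conj_conj]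
    rw [e1, hpol, hpol]
    simp only [map_mul, map_sub, map_add, map_one, map_pow, map_neg, Complex.conj_conj,
      Complex.conj_ofReal]
  -- the power series
  set E : PowerSeries ℂ := (1 - PowerSeries.X) * ∏ i, ∏ j, Ge (α i * conj (α j)) with hE
  set Bs : PowerSeries ℂ := -(Ge 1 - 1) + ∑ i, ∑ j, (Ge (α i * conj (α j)) - 1) with hBs
  have hthE : th E = Bs * E := by
    have e1 : th (1 - PowerSeries.X : PowerSeries ℂ) = -(Ge 1 - 1) * (1 - PowerSeries.X) := by
      have := th_lin 1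
      rw [map_one, one_mul] at this
      exact this
    have e2 : th (∏ i, ∏ j, Ge (α i * conj (α j))) =
        (∑ i, ∑ j, (Ge (α i * conj (α j)) - 1)) * ∏ i, ∏ j, Ge (α i * conj (α j)) := by
      apply th_prod
      intro i _
      apply th_prod
      intro j _
      exact th_Ge _
    rw [hE, th_mul, e1, e2, hBs]
    ring
  set Br : ℕ → ℝ := fun k => if k = 0 then 0 else ‖∑ i, α i ^ k‖ ^ 2 - 1 with hBr
  have hBr0 : Br 0 = 0 := by rw [hBr]; simp
  have hcB : ∀ k, PowerSeries.coeff k Bs = (Br k : ℂ) := by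
    intro k
    rw [hBs, map_add, map_neg, map_sub, coeff_Ge, map_sum]
    by_cases hk : k = 0
    · subst hk
      rw [hBr0]
      simp only [pow_zero, PowerSeries.coeff_one, if_true, sub_self, neg_zero, zero_add,
        Complex.ofReal_zero]
      apply sum_eq_zero
      intro i _
      rw [map_sum]
      apply sum_eq_zero
      intro j _
      rw [map_sub, coeff_Ge, PowerSeries.coeff_one]
      simp
    · have e1 : PowerSeries.coeff k (1 : PowerSeries ℂ) = 0 := by
        rw [PowerSeries.coeff_one, if_neg hk]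
      have e2 : Br k = ‖∑ i, α i ^ k‖ ^ 2 - 1 := by
        rw [hBr]
        simp only [if_neg hk]
      rw [e1, e2, one_pow, sub_zero]
      have e3 : ∑ i, PowerSeries.coeff k (∑ j, (Ge (α i * conj (α j)) - 1)) =
          (∑ i, α i ^ k) * conj (∑ i, α i ^ k) := by
        rw [map_sum, sum_mul_sum]
        apply sum_congr rfl
        intro i _
        rw [map_sum]
        apply sum_congr rfl
        intro j _
        rw [map_sub, coeff_Ge, e1, sub_zero, mul_pow, map_pow]
      rw [e3, Complex.mul_conj, Complex.normSq_eq_norm_sq]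
      push_cast
      ring
  have hrecC : ∀ k : ℕ, (k : ℂ) * PowerSeries.coeff k E =
      ∑ p ∈ antidiagonal k, (Br p.1 : ℂ) * PowerSeries.coeff p.2 E := by
    intro k
    rw [← coeff_th, hthE, PowerSeries.coeff_mul]
    apply sum_congr rfl
    intro p _
    rw [hcB]
  have hE0 : PowerSeries.coeff 0 E = 1 := by
    rw [PowerSeries.coeff_zero_eq_constantCoeff_apply, hE, map_mul, map_prod]
    have e1 : ∀ i, PowerSeries.constantCoeff (∏ j, Ge (α i * conj (α j))) = 1 := by
      intro i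
      rw [map_prod]
      apply prod_eq_one
      intro j _
      rw [← PowerSeries.coeff_zero_eq_constantCoeff_apply, coeff_Ge, pow_zero]
    rw [prod_congr rfl (fun i _ => e1 i)]
    simp
  set e : ℕ → ℝ := fun k => (PowerSeries.coeff k E).re with he
  have him : ∀ k, (PowerSeries.coeff k E).im = 0 := by
    intro k
    induction k using Nat.strong_induction_on with
    | _ k ih =>
      rcases Nat.eq_zero_or_pos k with h0 | h0
      · rw [h0, hE0, Complex.one_im]
      · have e1 := congrArg Complex.im (hrecC k)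
        have hk : (k : ℝ) ≠ 0 := by
          have : k ≠ 0 := by omega
          exact_mod_cast this
        rw [Complex.im_sum] at e1
        have e2 : ∑ p ∈ antidiagonal k, ((Br p.1 : ℂ) * PowerSeries.coeff p.2 E).im = 0 := by
          apply sum_eq_zero
          rintro ⟨i, j⟩ hij
          rw [HasAntidiagonal.mem_antidiagonal] at hij
          simp only at hij ⊢
          rw [Complex.im_ofReal_mul]
          rcases Nat.eq_zero_or_pos i with hi | hi
          · rw [hi, hBr0, zero_mul]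
          · rw [ih j (by omega), mul_zero]
        rw [e2] at e1
        have e3 : ((k : ℂ) * PowerSeries.coeff k E).im = (k : ℝ) * (PowerSeries.coeff k E).im := by
          have := Complex.im_ofReal_mul (k : ℝ) (PowerSeries.coeff k E)
          rwa [Complex.ofReal_natCast] at this
        rw [e3] at e1
        exact (mul_eq_zero.mp e1).resolve_left hk
  have hee : ∀ k, PowerSeries.coeff k E = (e k : ℂ) := by
    intro k
    apply Complex.ext
    · rw [Complex.ofReal_re]
    · rw [Complex.ofReal_im, him]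
  have hrec : ∀ k : ℕ, (k : ℝ) * e k = ∑ p ∈ antidiagonal k, Br p.1 * e p.2 := by
    intro k
    have e1 := hrecC k
    rw [hee] at e1
    have e2 : ∀ p ∈ antidiagonal k, (Br p.1 : ℂ) * PowerSeries.coeff p.2 E =
        ((Br p.1 * e p.2 : ℝ) : ℂ) := by
      intro p _
      rw [hee]
      push_cast
      ring
    rw [sum_congr rfl e2, ← Complex.ofReal_sum] at e1
    exact_mod_cast e1
  have he0 : e 0 = 1 := by
    rw [he]
    simp only
    rw [hE0, Complex.one_re]
  -- the power sums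
  have hBk : ∀ k, 1 ≤ k → Br k =
      ‖1 + ((y ^ k + (y⁻¹) ^ k : ℝ) : ℂ) * ∑ j, β j ^ k‖ ^ 2 - 1 := by
    intro k hk
    rw [← al2_sum]
    rw [hBr]
    simp only [if_neg (show k ≠ 0 by omega)]
    rfl
  have hps : ∀ k, 1 ≤ k → k < g - 1 → Br k = 2 * ((y ^ k + (y⁻¹) ^ k) * b ^ k) +
      ((y ^ k + (y⁻¹) ^ k) * b ^ k) ^ 2 := by
    intro k hk1 hk2
    rw [hBk k hk1, pow_sum (by omega) β hβ k hk1 hk2]
    have e1 : 1 + ((y ^ k + (y⁻¹) ^ k : ℝ) : ℂ) * (b : ℂ) ^ k =
        ((1 + (y ^ k + (y⁻¹) ^ k) * b ^ k : ℝ) : ℂ) := by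
      push_cast
      ring
    rw [e1, Complex.norm_real, Real.norm_eq_abs, sq_abs]
    ring
  have hx1' : |x| ≤ 1 := by linarith
  have hBsmall : ∀ i, 1 ≤ i → i < g - 1 → |Br i| ≤ 3 * |x| ^ i := by
    intro i hi1 hi2
    rw [hps i hi1 hi2]
    set c : ℝ := (y ^ i + (y⁻¹) ^ i) * b ^ i with hc
    have e1 : |c| ≤ |x| ^ i := hcx i hi1
    have e2 : |x| ^ i ≤ 1 := pow_le_one₀ (abs_nonneg _) hx1'
    have e3 : 0 ≤ |c| := abs_nonneg _
    calc |2 * c + c ^ 2| ≤ |2 * c| + |c ^ 2| := abs_add_le _ _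
      _ = 2 * |c| + |c| ^ 2 := by
          rw [abs_mul, abs_pow, abs_of_pos (by norm_num : (0 : ℝ) < 2)]
      _ ≤ 3 * |x| ^ i := by nlinarith
  have hBM : ∀ i, |Br i| ≤ 8 * (g : ℝ) ^ 2 * y ^ (2 * i) := by
    intro i
    by_cases hi : i = 0
    · rw [hi, hBr0, abs_zero]
      positivity
    · rw [hBk i (by omega)]
      set π : ℂ := ∑ j, β j ^ i with hπ
      have e3 : ‖π‖ ≤ (g : ℝ) := by
        refine (norm_sum_le _ _).trans ?_
        have : ∀ j ∈ (univ : Finset (Fin g)), ‖β j ^ i‖ = 1 := by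
          intro j _
          rw [norm_pow, hβ1, one_pow]
        rw [sum_congr rfl this]
        simp
      have hyi : 1 ≤ y ^ i := one_le_pow₀ hy
      have hyi2 : (y⁻¹) ^ i ≤ 1 := pow_le_one₀ (by positivity) (inv_le_one_of_one_le₀ hy)
      have hyi3 : 0 < (y⁻¹) ^ i := by positivity
      set T : ℂ := ((y ^ i + (y⁻¹) ^ i : ℝ) : ℂ) * π with hT
      have e4 : ‖T‖ ≤ 2 * y ^ i * g := by
        rw [hT, norm_mul, Complex.norm_real, Real.norm_of_nonneg (by positivity)]
        apply mul_le_mul _ e3 (norm_nonneg _) (by positivity)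
        linarith
      have e5 : ‖1 + T‖ ≤ 1 + ‖T‖ := by
        have := norm_add_le (1 : ℂ) T
        rwa [norm_one] at this
      have e6 : 1 ≤ ‖1 + T‖ + ‖T‖ := by
        have := norm_sub_le (1 + T) T
        rw [add_sub_cancel_right, norm_one] at this
        exact this
      have e7 : 0 ≤ ‖T‖ := norm_nonneg _
      have e8 : 0 ≤ ‖1 + T‖ := norm_nonneg _
      have e9 : |‖1 + T‖ ^ 2 - 1| ≤ ‖T‖ * (2 + ‖T‖) := by
        rw [abs_le]
        constructor <;> nlinarith
      refine e9.trans ?_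
      have e10 : ‖T‖ * (2 + ‖T‖) ≤ (2 * y ^ i * g) * (2 + 2 * y ^ i * g) :=
        mul_le_mul e4 (by linarith) (by positivity) (by positivity)
      refine e10.trans ?_
      have e11 : y ^ (2 * i) = y ^ i * y ^ i := by rw [two_mul, pow_add]
      rw [e11]
      set Y : ℝ := y ^ i with hY
      have e12 : (1 : ℝ) ≤ Y * g := by nlinarith
      nlinarith [mul_le_mul_of_nonneg_left e12 (show (0 : ℝ) ≤ Y * g by positivity)]
  refine ⟨e, he0, ?_, ?_, ?_, ?_, β, hβ1, hβp, hconj, ?_⟩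
  · have e1 := hrec 1
    rw [Nat.sum_antidiagonal_eq_sum_range_succ_mk, sum_range_succ, sum_range_one] at e1
    simp only [Nat.sub_self, hBr0, he0, hps 1 le_rfl (by omega)] at e1
    have e2 : (y ^ 1 + (y⁻¹) ^ 1) * b ^ 1 = x := by
      rw [pow_one, pow_one, pow_one, hb]
      field_simp
    rw [e2] at e1
    push_cast at e1
    linarith
  · intro k hk2 hk
    have e1 := rec_mid (m := g - 2) he0 hBr0 hrec
      (fun i hi1 hi2 => hBsmall i hi1 (by omega)) k (by omega)
    have e2 : (3 * |x|) ^ k ≤ (3 * |x|) ^ 2 := by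
      apply pow_le_pow_of_le_one (by positivity) (by linarith) hk2
    have e3 : (3 * |x|) ^ 2 = 9 * x ^ 2 := by
      rw [mul_pow, sq_abs]
      norm_num
    nlinarith [sq_nonneg z]
  · intro k
    -- rescale
    have hy2 : ∀ j : ℕ, 0 < y ^ (2 * j) := fun j => by positivity
    have e1 := rec_all (e := fun j => e j / y ^ (2 * j)) (B := fun j => Br j / y ^ (2 * j))
      (x := x) (M := 8 * (g : ℝ) ^ 2) (D := g - 1) (r := rr)
      (by simp [he0]) (by simp [hBr0]) (by
        intro j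
        rw [← mul_div_assoc, hrec, sum_div]
        apply sum_congr rfl
        rintro ⟨i, l⟩ hij
        rw [HasAntidiagonal.mem_antidiagonal] at hij
        simp only at hij ⊢
        rw [← hij, mul_add, pow_add]
        field_simp) (by
        intro i hi1 hi2
        rw [abs_div, abs_of_pos (hy2 i)]
        refine (div_le_self (abs_nonneg _) (one_le_pow₀ hy)).trans (hBsmall i hi1 hi2)) (by
        intro i
        rw [abs_div, abs_of_pos (hy2 i), div_le_iff₀ (hy2 i)]
        exact hBM i) hx1 rr_pos rr_lt hsm k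
    rw [rr_inv] at e1
    rw [abs_div, abs_of_pos (hy2 k), div_le_iff₀ (hy2 k)] at e1
    have e2 : 0 < (3 : ℝ) ^ ((k : ℝ) / 64) := Real.rpow_pos_of_pos (by norm_num) _
    have e3 := mul_pos e2 (hy2 k)
    linarith
  · intro hz0 k
    have hx0 : x = 0 := by
      have e1 : x ^ 2 ≤ 0 := by
        rw [hz0] at hxz
        simpa using hxz
      nlinarith [sq_nonneg x]
    have hb0 : b = 0 := by rw [hb, hx0, zero_div]
    set R : ℝ := (8 * (g : ℝ)) ^ (1 / (g : ℝ)) with hR
    have hg0 : (g : ℝ) ≠ 0 := by linarith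
    have hRpos : 0 < R := Real.rpow_pos_of_pos (by linarith) _
    have hR1 : 1 ≤ R := Real.one_le_rpow (by linarith) (by positivity)
    have hRg : R ^ g = 8 * g := by
      rw [hR, ← Real.rpow_natCast, ← Real.rpow_mul (by linarith), one_div, inv_mul_cancel₀ hg0,
        Real.rpow_one]
    have hRk : R ^ k = (8 * (g : ℝ)) ^ ((k : ℝ) / g) := by
      rw [hR, ← Real.rpow_natCast, ← Real.rpow_mul (by linarith)]
      congr 1
      ring
    have hBz : ∀ i, ¬ g ∣ i → Br i = 0 := by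
      intro i hi
      have h9 : i ≠ 0 := by rintro rfl; exact hi (dvd_zero g)
      rw [hBk i (by omega), pow_sum0 (by omega) hb0 β hβ i hi]
      simp
    have e1 := rec_gen (e := e) (B := Br) (ρ := R * y ^ 2) (by positivity) he0 hBr0 hrec (by
      intro m hm
      have e2 : ∀ i ∈ Ico 1 (m + 1), |Br i| * ((R * y ^ 2)⁻¹) ^ i ≤
          if g ∣ i then (g : ℝ) else 0 := by
        intro i hi
        rw [mem_Ico] at hi
        split_ifs with hd
        · have e3 : g ≤ i := Nat.le_of_dvd (by omega) hd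
          have e4 : 8 * (g : ℝ) ≤ R ^ i := by
            rw [← hRg]
            exact pow_le_pow_right₀ hR1 e3
          rw [inv_pow, mul_pow, ← pow_mul]
          have e5 : 0 < R ^ i * y ^ (2 * i) := by positivity
          rw [← div_eq_mul_inv, div_le_iff₀ e5]
          refine (hBM i).trans ?_
          have e6 : 0 < y ^ (2 * i) := by positivity
          have e7 : (g : ℝ) * (8 * (g : ℝ)) * y ^ (2 * i) ≤ g * R ^ i * y ^ (2 * i) := by
            gcongr
          nlinarith
        · rw [hBz i hd, abs_zero, zero_mul]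
      refine (sum_le_sum e2).trans ?_
      rw [← sum_filter, sum_const, nsmul_eq_mul]
      have e8 : ((Ico 1 (m + 1)).filter (fun i => g ∣ i)).card ≤ m / g := by
        rw [← Nat.Ioc_filter_dvd_card_eq_div m g]
        apply card_le_card
        intro i hi
        rw [mem_filter, mem_Ico] at hi
        rw [mem_filter, mem_Ioc]
        exact ⟨by omega, hi.2⟩
      have e9 : ((m / g : ℕ) : ℝ) * g ≤ m := by
        exact_mod_cast Nat.div_mul_le_self m g
      have e10 : (((Ico 1 (m + 1)).filter (fun i => g ∣ i)).card : ℝ) ≤ ((m / g : ℕ) : ℝ) := by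
        exact_mod_cast e8
      refine (mul_le_mul_of_nonneg_right e10 (by positivity)).trans e9) k
    rw [mul_pow, hRk, ← pow_mul] at e1
    exact e1
  · intro w hw
    have e1 : Ev w E ((1 - w) * ∏ i, ∏ j, (1 - α i * conj (α j) * w)⁻¹) := by
      apply Ev_mul (Ev_lin w)
      apply Ev_prod
      intro i _
      apply Ev_prod
      intro j _
      apply Ev_Ge
      rw [norm_mul, norm_mul, Complex.norm_conj]
      have e2 : ‖α i‖ * ‖α j‖ ≤ y ^ 2 := by
        rw [sq]
        exact mul_le_mul (hα1 i) (hα1 j) (norm_nonneg _) hy0.le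
      exact (mul_le_mul_of_nonneg_right e2 (norm_nonneg _)).trans_lt hw
    have e2 := e1.2
    simp only [hee] at e2
    exact e2

theorem small_ex2 : ∃ N₁ : ℕ, ∀ g : ℕ, N₁ ≤ g →
    8 * (g : ℝ) ^ 2 * (rr ^ (g - 1) / (1 - rr)) ≤ 1 / 2 := by
  have h1 : Filter.Tendsto (fun n : ℕ => (n : ℝ) ^ 2 * rr ^ n) Filter.atTop (nhds 0) :=
    tendsto_pow_const_mul_const_pow_of_abs_lt_one 2 (by
      rw [abs_of_pos rr_pos]
      exact rr_lt)
  have hr := rr_pos
  have hr1 : 0 < 1 - rr := by linarith [rr_lt]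
  have h2 : ∀ᶠ n : ℕ in Filter.atTop, (n : ℝ) ^ 2 * rr ^ n < rr * (1 - rr) / 16 :=
    (tendsto_order.1 h1).2 _ (by positivity)
  obtain ⟨N₁, hN₁⟩ := Filter.eventually_atTop.1 h2
  refine ⟨N₁ + 1, fun g hg => ?_⟩
  have h3 := (hN₁ g (by omega)).le
  have h4 : rr ^ g = rr * rr ^ (g - 1) := by
    rw [← pow_succ']
    congr 1
    omega
  rw [h4] at h3
  have h5 : rr * ((g : ℝ) ^ 2 * rr ^ (g - 1)) ≤ rr * ((1 - rr) / 16) := by
    nlinarith
  have h6 : (g : ℝ) ^ 2 * rr ^ (g - 1) ≤ (1 - rr) / 16 :=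
    le_of_mul_le_mul_left h5 (by positivity)
  rw [← mul_div_assoc, div_le_iff₀ hr1]
  linarith

theorem t_H2F (h2 : Pool.Agent.Q284.PS.S_LOC2) : S_H2F := by
  obtain ⟨N₁, hN₁⟩ := small_ex2
  refine ⟨N₁ + 10, fun g hg => ?_⟩
  have key : ∀ y z : ℝ, ∃ e : ℕ → ℝ, e 0 = 1 ∧ (1 ≤ y → |z| ≤ 1 / 100 → e 1 = z ∧
      (∀ k, 2 ≤ k → k < g - 1 → |e k| ≤ 10 * z ^ 2) ∧
      (∀ k : ℕ, |e k| ≤ 2 * (3 : ℝ) ^ ((k : ℝ) / 64) * y ^ (2 * k)) ∧
      (z = 0 → ∀ k : ℕ, |e k| ≤ (8 * (g : ℝ)) ^ ((k : ℝ) / g) * y ^ (2 * k)) ∧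
      ∃ β : Fin g → ℂ, (∀ j, ‖β j‖ = 1) ∧ ∏ j, β j = 1 ∧
        (∀ w : ℂ, ∏ j, (1 - conj (β j) * w) = ∏ j, (1 - β j * w)) ∧
        ∀ w : ℂ, y ^ 2 * ‖w‖ < 1 →
          HasSum (fun k : ℕ => (e k : ℂ) * w ^ k)
            ((1 - w) * ∏ i, ∏ j, (1 - al2 y β i * conj (al2 y β j) * w)⁻¹)) := by
    intro y z
    by_cases hy : 1 ≤ y
    · by_cases hz : |z| ≤ 1 / 100
      · obtain ⟨e, h0, h1⟩ := per h2 (by omega) (hN₁ g (by omega)) y hy z hz
        exact ⟨e, h0, fun _ _ => h1⟩
      · exact ⟨fun _ => 1, rfl, fun _ h => absurd h hz⟩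
    · exact ⟨fun _ => 1, rfl, fun h => absurd h hy⟩
  choose v hv0 hv using key
  refine ⟨v, fun y hy => ⟨fun z => hv0 y z, fun z hz => (hv y z hy hz).1, ?_, ?_, ?_, ?_⟩⟩
  · intro z k hz hk1 hk2
    exact (hv y z hy hz).2.1 k hk1 hk2
  · intro z k hz
    exact (hv y z hy hz).2.2.1 k
  · intro k
    exact (hv y 0 hy (by norm_num)).2.2.2.1 rfl k
  · intro z hz
    exact (hv y z hy hz).2.2.2.2

end Pool.Agent.Q223.PX
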